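import Pool.Agent.Helper48.OD.St

/-! Project OD, module NV, by helper57. -/

set_option autoImplicit false

namespace Pool.Agent.Helper57.OD

open Pool.Agent.Helper43.GD Pool.Agent.Helper48.OD

theorem hNV (h1 : StP1) (h2 : StP2) (h3 : StCM) : StNV := by
  intro L A _ _ Q v hF
  obtain ⟨-, hgd, hgn, hod⟩ := hF
  obtain ⟨hv, hin⟩ := hgd
  have hu1 : IsUnit (1 - (v : L)) := in_isUnit Q hin
  obtain ⟨d, hd, ed⟩ := hin
  obtain ⟨c, ec⟩ := hod.isUnit_add hu1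
  have key : (((c * d)⁻¹ : Lˣ) : L) * (1 - (v : L) * v) = 1 := by
    have e1 : (1 - (v : L) * v) = ((c * d : Lˣ) : L) := by
      rw [Units.val_mul, ed, ec]; ring
    rw [e1, Units.inv_mul]
  have hS2 : Q.S (c * d)⁻¹ (v ^ 2) := by
    refine h1 L A Q (c * d)⁻¹ (v ^ 2) (-1) (Q.U.pow_mem hv 2) Q.neg ?_
    rw [Units.val_neg, Units.val_one, Units.val_pow_eq_pow_val]
    linear_combination key
  obtain ⟨n, hn⟩ := hod.eq_pow 1
  have hSv : Q.S (c * d)⁻¹ v := by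
    have h4 := Q.S_pow hS2 n
    rw [pow_one] at hn
    rwa [hn] at h4
  have hSci : Q.S c⁻¹ v := by
    have e2 : (c * d)⁻¹ = d⁻¹ * c⁻¹ := mul_inv_rev c d
    rw [e2, Q.S_smul_iff (Q.U.inv_mem hd)] at hSv
    exact hSv
  have hSc : Q.S c v := by
    refine (h2 L A Q (c * d)⁻¹ v c hv ?_).1 hSv
    rw [ec]
    linear_combination key
  have hM : Mr Q c = ⊤ := (gn_iff (v : L)).1 hgn (Mr Q c) (mem_Mr Q hSc)
  exact ⟨c, h3 L A Q c v v hSc hSci hu1 hu1 hM, ec⟩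

end Pool.Agent.Helper57.OD
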